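import Mathlib

/-!
# Crouzeix's conjecture, disc coordinate: definitions and module statements

`K` is a compact convex set with `0` in its interior, `g : 𝔻 → {u : u = 0 ∨ u⁻¹ ∉ K}` is the Riemann
map with `g 0 = 0` (so `w = 1/t ↦ 1/g(t)` is the exterior map of `K`). All means are averages over
the circle `|t| = r`, `0 < r < 1`.
-/

set_option autoImplicit false

open Metric Set Polynomial

namespace KZ

/-- convex bodies -/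
def Body (K : Set ℂ) : Prop := IsCompact K ∧ Convex ℝ K ∧ (0 : ℂ) ∈ interior K

/-- the exterior Riemann map of `K` in the coordinate at infinity -/
structure Ext (K : Set ℂ) (g : ℂ → ℂ) : Prop where
  diff : DifferentiableOn ℂ g (ball 0 1)
  zero : g 0 = 0
  inj : InjOn g (ball 0 1)
  der : ∀ t ∈ ball (0 : ℂ) 1, deriv g t ≠ 0
  image : g '' ball 0 1 = {u | u = 0 ∨ u⁻¹ ∉ K}

/-- `τ(t) = t g'(t) / g(t)`, `τ(0) = 1` -/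
noncomputable def tau (g : ℂ → ℂ) (t : ℂ) : ℂ := deriv g t / dslope g 0 t

/-- `Q(s,t) = τ(s) / (1 - g(s)/g(t))` -/
noncomputable def Qk (g : ℂ → ℂ) (s t : ℂ) : ℂ := tau g s * g t / (g t - g s)

/-- mean over the circle of radius `r` -/
noncomputable abbrev av {E : Type*} [NormedAddCommGroup E] [NormedSpace ℝ E] (r : ℝ) (u : ℂ → E) :
    E := Real.circleAverage u 0 r

/-- Faber polynomials: `F_k(z)` is the `k`-th Taylor coefficient of `τ(s) / (1 - g(s) z)` -/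
noncomputable def fab (g : ℂ → ℂ) (r : ℝ) (k : ℕ) : ℂ[X] :=
  ∑ j ∈ Finset.range (k + 1), C (av r (fun s => s⁻¹ ^ k * (tau g s * g s ^ j))) * X ^ j

/-! ## Geometry -/

/-- EXT: existence of the exterior map (Helper6/LE/RMT.lean). -/
def ST_EXT : Prop := ∀ K : Set ℂ, Body K → ∃ g, Ext K g

/-- TAU: `τ` is analytic, `τ(0) = 1`, `g(t)/t` has no zeros. -/
def ST_TAU : Prop := ∀ (K : Set ℂ) (g : ℂ → ℂ), Body K → Ext K g →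
  DifferentiableOn ℂ (tau g) (ball 0 1) ∧ DifferentiableOn ℂ (dslope g 0) (ball 0 1) ∧
  tau g 0 = 1 ∧ (∀ t ∈ ball (0 : ℂ) 1, dslope g 0 t ≠ 0) ∧ (∀ t, g t = t * dslope g 0 t) ∧
  (∀ t ∈ ball (0 : ℂ) 1, t ≠ 0 → g t ≠ 0) ∧ ∀ t ∈ ball (0 : ℂ) 1, tau g t ≠ 0

/-- STAR: the starlike criterion (Schwarz lemma). -/
def ST_STAR : Prop := ∀ (K : Set ℂ) (g : ℂ → ℂ), Body K → Ext K g → ∀ z ∈ K,
  ∀ t ∈ ball (0 : ℂ) 1, 1 - g t * z ≠ 0 ∧ 0 ≤ (tau g t / (1 - g t * z)).re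

/-- LIM: `1/g(t)` tends to `K` as `|t| → 1`. -/
def ST_LIM : Prop := ∀ (K : Set ℂ) (g : ℂ → ℂ), Body K → Ext K g → ∀ ε > 0, ∃ r₀ < 1,
  ∀ t ∈ ball (0 : ℂ) 1, r₀ < ‖t‖ → ∃ z ∈ K, ‖(g t)⁻¹ - z‖ < ε

/-- LVL: positivity of the kernel (from STAR, LIM; minimum principle for `t ↦ Q(η t, t)`). -/
def ST_LVL : Prop := ∀ (K : Set ℂ) (g : ℂ → ℂ), Body K → Ext K g → ∀ s ∈ ball (0 : ℂ) 1,
  ∀ t ∈ ball (0 : ℂ) 1, ‖s‖ ≤ ‖t‖ → s ≠ t → 0 ≤ (Qk g s t).re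

/-! ## Faber polynomials -/

/-- FAB: the Faber polynomials are a basis. -/
def ST_FAB : Prop := ∀ (K : Set ℂ) (g : ℂ → ℂ), Body K → Ext K g → ∀ r : ℝ, 0 < r → r < 1 →
  fab g r 0 = 1 ∧ ∀ q : ℂ[X], ∃ (n : ℕ) (c : ℕ → ℂ), q = ∑ k ∈ Finset.range (n + 1), C (c k) * fab g r k

/-- RK: `F_k(1/g(t)) = t⁻ᵏ + R_k(t)`, and on `|t| = r` the function `R_k` is the integral of `s⁻ᵏ`
against a nonnegative continuous kernel `p` with integral `1`. -/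
def ST_RK : Prop := ∀ (K : Set ℂ) (g : ℂ → ℂ), Body K → Ext K g → ∀ r : ℝ, 0 < r → r < 1 →
  ∃ R : ℕ → ℂ → ℂ,
    (∀ k, 1 ≤ k → DifferentiableOn ℂ (R k) (ball 0 1) ∧ R k 0 = 0 ∧
      ∀ t ∈ ball (0 : ℂ) 1, t ≠ 0 → (fab g r k).eval (g t)⁻¹ = t⁻¹ ^ k + R k t) ∧
    ∀ t ∈ sphere (0 : ℂ) r, ∃ p : ℂ → ℝ, ContinuousOn p (sphere 0 r) ∧
      (∀ s ∈ sphere (0 : ℂ) r, 0 ≤ p s) ∧ av r p = 1 ∧
      ∀ k, 1 ≤ k → av r (fun s => s⁻¹ ^ k * (p s : ℂ)) = R k t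

/-- CON: the contraction (from RK; no Fubini: `|v|² = b₀ + 2 Re ∑ b_j s⁻ʲ` on the circle). -/
def ST_CON : Prop := ∀ (r : ℝ), 0 < r → r < 1 → ∀ R : ℕ → ℂ → ℂ,
  (∀ k, 1 ≤ k → DifferentiableOn ℂ (R k) (ball 0 1) ∧ R k 0 = 0) →
  (∀ t ∈ sphere (0 : ℂ) r, ∃ p : ℂ → ℝ, ContinuousOn p (sphere 0 r) ∧
      (∀ s ∈ sphere (0 : ℂ) r, 0 ≤ p s) ∧ av r p = 1 ∧
      ∀ k, 1 ≤ k → av r (fun s => s⁻¹ ^ k * (p s : ℂ)) = R k t) →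
  ∀ (N : ℕ) (v : ℕ → ℂ), av r (fun t => ‖∑ k ∈ Finset.Icc 1 N, v k * R k t‖ ^ 2) ≤
    ∑ k ∈ Finset.Icc 1 N, ‖v k‖ ^ 2 * r⁻¹ ^ (2 * k)

/-- LOW: orthogonality. -/
def ST_LOW : Prop := ∀ (r : ℝ), 0 < r → r < 1 → ∀ (N : ℕ) (c : ℂ) (v : ℕ → ℂ) (R : ℂ → ℂ),
  DifferentiableOn ℂ R (ball 0 1) → R 0 = 0 →
  av r (fun t => ‖c + ∑ k ∈ Finset.Icc 1 N, v k * t⁻¹ ^ k + R t‖ ^ 2) =
    ‖c‖ ^ 2 + ∑ k ∈ Finset.Icc 1 N, ‖v k‖ ^ 2 * r⁻¹ ^ (2 * k) + av r (fun t => ‖R t‖ ^ 2)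

/-- PAR: Parseval (limit of the partial sums). -/
def ST_PAR : Prop := ∀ (r : ℝ), 0 < r → r < 1 → ∀ e : ℂ → ℂ, DifferentiableOn ℂ e (ball 0 1) →
  ∀ ε > 0, ∃ N₀ : ℕ, ∀ N ≥ N₀, av r (fun t => (2 * (e t).re) ^ 2) ≤
    2 * (e 0 ^ 2).re + 2 * ‖e 0‖ ^ 2 +
      2 * (∑ k ∈ Finset.Icc 1 N, ‖av r (fun s => s⁻¹ ^ k * e s)‖ ^ 2 * r ^ (2 * k)) + ε

/-! ## Operators -/

/-- the function `⟪y, τ(s) (1 - g(s) A)⁻¹ x⟫` -/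
noncomputable def ent {E : Type*} [NormedAddCommGroup E] [InnerProductSpace ℂ E]
    (g : ℂ → ℂ) (A : E →L[ℂ] E) (x y : E) (s : ℂ) : ℂ :=
  inner ℂ y ((tau g s) • (Ring.inverse (1 - g s • A)) x)

/-- POS: invertibility and positivity (from STAR, TAU). -/
def ST_POS.{u} : Prop := ∀ (K : Set ℂ) (g : ℂ → ℂ), Body K → Ext K g →
  ∀ (E : Type u) [NormedAddCommGroup E] [InnerProductSpace ℂ E] [FiniteDimensional ℂ E]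
    (A : E →L[ℂ] E), (∀ x : E, ‖x‖ = 1 → inner ℂ x (A x) ∈ K) →
    ∀ t ∈ ball (0 : ℂ) 1, IsUnit (1 - g t • A) ∧ ∀ x : E, 0 ≤ (ent g A x x t).re

/-- COE: Taylor coefficients (finite geometric sums). -/
def ST_COE.{u} : Prop := ∀ (K : Set ℂ) (g : ℂ → ℂ), Body K → Ext K g →
  ∀ r : ℝ, 0 < r → r < 1 →
  ∀ (E : Type u) [NormedAddCommGroup E] [InnerProductSpace ℂ E] [FiniteDimensional ℂ E]
    (A : E →L[ℂ] E), (∀ t ∈ ball (0 : ℂ) 1, IsUnit (1 - g t • A)) → ∀ x y : E,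
    DifferentiableOn ℂ (ent g A x y) (ball 0 1) ∧ ent g A x y 0 = inner ℂ y x ∧
    ∀ k : ℕ, av r (fun s => s⁻¹ ^ k * ent g A x y s) = inner ℂ y ((aeval A (fab g r k)) x)

/-- MAIN: the inequality on the circle `|t| = r` (from TAU, FAB, RK, CON, LOW, PAR, POS, COE). -/
def ST_MAIN.{u} : Prop := ∀ (K : Set ℂ) (g : ℂ → ℂ), Body K → Ext K g →
  ∀ r : ℝ, 0 < r → r < 1 →
  ∀ (E : Type u) [NormedAddCommGroup E] [InnerProductSpace ℂ E] [FiniteDimensional ℂ E]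
    (A : E →L[ℂ] E), (∀ x : E, ‖x‖ = 1 → inner ℂ x (A x) ∈ K) →
    ∀ (q : ℂ[X]) (m : ℝ), 0 ≤ m → (∀ t ∈ sphere (0 : ℂ) r, ‖q.eval (g t)⁻¹‖ ≤ m) →
      ‖aeval A q‖ ≤ 2 * m

/-- BOD: the inequality for convex bodies (from EXT, LIM, MAIN: `r → 1`). -/
def ST_BOD.{u} : Prop := ∀ (K : Set ℂ), Body K →
  ∀ (E : Type u) [NormedAddCommGroup E] [InnerProductSpace ℂ E] [FiniteDimensional ℂ E]
    (A : E →L[ℂ] E), (∀ x : E, ‖x‖ = 1 → inner ℂ x (A x) ∈ K) →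
    ∀ (q : ℂ[X]) (m : ℝ), 0 ≤ m → (∀ z ∈ K, ‖q.eval z‖ ≤ m) → ‖aeval A q‖ ≤ 2 * m

/-- FIN: finite dimension (from BOD and the theorem of Toeplitz-Hausdorff: Helper71/CP/TH.lean;
translate `A` by a point of `W(A)` and thicken `W(A)`). -/
def ST_FIN.{u} : Prop := ∀ (E : Type u) [NormedAddCommGroup E] [InnerProductSpace ℂ E]
    [FiniteDimensional ℂ E] (A : E →L[ℂ] E) (q : ℂ[X]) (m : ℝ), 0 ≤ m →
    (∀ x : E, ‖x‖ = 1 → ‖q.eval (inner ℂ x (A x))‖ ≤ m) → ‖aeval A q‖ ≤ 2 * m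

/-- GEN: all operators (from FIN by compression, see Helper71/CP/FIN.lean). -/
def ST_GEN.{u} : Prop := ∀ (E : Type u) [NormedAddCommGroup E] [InnerProductSpace ℂ E]
    (A : E →L[ℂ] E) (q : ℂ[X]) (m : ℝ), 0 ≤ m →
    (∀ x : E, ‖x‖ = 1 → ‖q.eval (inner ℂ x (A x))‖ ≤ m) → ‖aeval A q‖ ≤ 2 * m

end KZ
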