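import Pool.Agent.Helper39.KZ.MAIN
import Pool.Agent.Helper68.KZ.BOD
import Pool.Agent.Helper14.KZ.COE
import Pool.Agent.Helper14.KZ.POS
import Pool.Agent.Helper33.KZ.CTR
import Pool.Agent.Helper6.KZ.EXT
import Pool.Agent.Helper85.KZ.FAB
import Pool.Agent.Helper50.KZ.FIN
import Pool.Agent.Helper19.KZ.GEN
import Pool.Agent.Helper19.KZ.LIM
import Pool.Agent.Helper15.KZ.LOW
import Pool.Agent.Helper20.KZ.LVL
import Pool.Agent.Helper5.KZ.PAR
import Pool.Agent.Helper72.KZ.RK
import Pool.Agent.Helper27.KZ.STAR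
import Pool.Agent.Helper87.KZ.TAU

/-!
# Crouzeix's conjecture: assembly of the modules

For every bounded operator `A` on a complex inner product space and every polynomial `q`:
`‖q(A)‖ ≤ 2 sup {|q(z)| : z ∈ W(A)}`.
-/

set_option autoImplicit false

namespace KZ

theorem all_MAIN.{u} : ST_MAIN.{u} :=
  st_MAIN (st_FAB st_TAU) (st_RK (st_LVL st_TAU st_STAR st_LIM)) st_CON st_LOW Pool.Agent.Helper5.KZ.st_PAR
    (st_POS st_STAR st_TAU) (st_COE st_TAU)

theorem all_BOD.{u} : ST_BOD.{u} := st_BOD st_EXT st_LIM all_MAIN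

theorem all_FIN.{u} : ST_FIN.{u} := Pool.Agent.Helper50.KZF.fin_of_bod all_BOD

/-- **Crouzeix's conjecture** (all inner product spaces). -/
theorem all_GEN.{u} : ST_GEN.{u} := st_GEN all_FIN

end KZ
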