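import Pool.Agent.Helper39.KZ.Stmts

/-! # Toolkit for averages over the circle `|s| = r` -/

set_option autoImplicit false

open Metric Set Polynomial

namespace KZ

section
variable {E : Type*} [NormedAddCommGroup E] [NormedSpace ℝ E]

theorem av_congr {r : ℝ} (hr : 0 < r) {u v : ℂ → E} (h : ∀ s ∈ sphere (0 : ℂ) r, u s = v s) :
    av r u = av r v :=
  Real.circleAverage_congr_sphere (by rw [abs_of_pos hr]; exact h)

omit [NormedSpace ℝ E] in
theorem ci {r : ℝ} (hr : 0 < r) {u : ℂ → E} (h : ContinuousOn u (sphere (0 : ℂ) r)) :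
    CircleIntegrable u 0 r := h.circleIntegrable hr.le

theorem av_add {r : ℝ} (hr : 0 < r) {u v : ℂ → E} (hu : ContinuousOn u (sphere (0 : ℂ) r))
    (hv : ContinuousOn v (sphere (0 : ℂ) r)) :
    av r (fun s => u s + v s) = av r u + av r v :=
  Real.circleAverage_fun_add (ci hr hu) (ci hr hv)

theorem av_sub {r : ℝ} (hr : 0 < r) {u v : ℂ → E} (hu : ContinuousOn u (sphere (0 : ℂ) r))
    (hv : ContinuousOn v (sphere (0 : ℂ) r)) :
    av r (fun s => u s - v s) = av r u - av r v :=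
  Real.circleAverage_fun_sub (ci hr hu) (ci hr hv)

theorem av_sum {ι : Type*} {r : ℝ} (hr : 0 < r) (I : Finset ι) {u : ι → ℂ → E}
    (hu : ∀ i ∈ I, ContinuousOn (u i) (sphere (0 : ℂ) r)) :
    av r (fun s => ∑ i ∈ I, u i s) = ∑ i ∈ I, av r (u i) :=
  Real.circleAverage_fun_sum fun i hi => ci hr (hu i hi)

theorem av_const [CompleteSpace E] (r : ℝ) (c : E) : av r (fun _ => c) = c :=
  Real.circleAverage_const c 0 r

theorem av_clm {F : Type*} [NormedAddCommGroup F] [NormedSpace ℝ F] [CompleteSpace E]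
    [CompleteSpace F]
    {r : ℝ} (hr : 0 < r) (L : E →L[ℝ] F) {u : ℂ → E} (hu : ContinuousOn u (sphere (0 : ℂ) r)) :
    av r (fun s => L (u s)) = L (av r u) :=
  ContinuousLinearMap.circleAverage_comp_comm L (ci hr hu)

end

theorem av_mul (r : ℝ) (c : ℂ) (u : ℂ → ℂ) : av r (fun s => c * u s) = c * av r u :=
  Real.circleAverage_fun_smul (𝕜 := ℂ) (a := c) (f := u)

theorem av_mul_real (r : ℝ) (c : ℝ) (u : ℂ → ℝ) : av r (fun s => c * u s) = c * av r u :=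
  Real.circleAverage_fun_smul (𝕜 := ℝ) (a := c) (f := u)

theorem av_conj {r : ℝ} (hr : 0 < r) {u : ℂ → ℂ} (hu : ContinuousOn u (sphere (0 : ℂ) r)) :
    av r (fun s => (starRingEnd ℂ) (u s)) = (starRingEnd ℂ) (av r u) :=
  av_clm hr (Complex.conjCLE : ℂ ≃L[ℝ] ℂ).toContinuousLinearMap hu

theorem av_re {r : ℝ} (hr : 0 < r) {u : ℂ → ℂ} (hu : ContinuousOn u (sphere (0 : ℂ) r)) :
    av r (fun s => (u s).re) = (av r u).re :=
  av_clm hr Complex.reCLM hu

theorem av_ofReal {r : ℝ} (hr : 0 < r) {u : ℂ → ℝ} (hu : ContinuousOn u (sphere (0 : ℂ) r)) :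
    av r (fun s => ((u s : ℝ) : ℂ)) = ((av r u : ℝ) : ℂ) :=
  av_clm hr Complex.ofRealCLM hu

theorem av_mono {r : ℝ} (hr : 0 < r) {u v : ℂ → ℝ} (hu : ContinuousOn u (sphere (0 : ℂ) r))
    (hv : ContinuousOn v (sphere (0 : ℂ) r)) (h : ∀ s ∈ sphere (0 : ℂ) r, u s ≤ v s) :
    av r u ≤ av r v :=
  Real.circleAverage_mono (ci hr hu) (ci hr hv) (by rw [abs_of_pos hr]; exact h)

theorem av_nonneg {r : ℝ} (hr : 0 < r) {u : ℂ → ℝ} (h : ∀ s ∈ sphere (0 : ℂ) r, 0 ≤ u s) :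
    0 ≤ av r u :=
  Real.circleAverage_nonneg_of_nonneg (by rw [abs_of_pos hr]; exact h)

theorem norm_av_le {r : ℝ} (hr : 0 < r) {u : ℂ → ℂ} (hu : ContinuousOn u (sphere (0 : ℂ) r)) :
    ‖av r u‖ ≤ av r (fun s => ‖u s‖) := by
  by_cases h0 : av r u = 0
  · rw [h0, norm_zero]
    exact av_nonneg hr fun s _ => norm_nonneg _
  · set c : ℂ := (starRingEnd ℂ) (av r u) / ‖av r u‖ with hc
    have hn : (‖av r u‖ : ℂ) ≠ 0 := by
      exact_mod_cast norm_ne_zero_iff.mpr h0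
    have hcn : ‖c‖ = 1 := by
      rw [hc, norm_div, RCLike.norm_conj, Complex.norm_real, norm_norm, div_self]
      exact norm_ne_zero_iff.mpr h0
    have h1 : c * av r u = (‖av r u‖ : ℂ) := by
      rw [hc, div_mul_eq_mul_div, mul_comm, Complex.mul_conj, Complex.normSq_eq_norm_sq]
      rw [div_eq_iff hn]
      push_cast; ring
    have h2 : ‖av r u‖ = (av r (fun s => c * u s)).re := by
      rw [av_mul, h1, Complex.ofReal_re]
    have hcu : ContinuousOn (fun s => c * u s) (sphere (0 : ℂ) r) := continuousOn_const.mul hu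
    rw [h2, ← av_re hr hcu]
    refine av_mono hr (Complex.continuous_re.comp_continuousOn hcu) hu.norm fun s _ => ?_
    calc (c * u s).re ≤ ‖c * u s‖ := Complex.re_le_norm _
      _ = ‖u s‖ := by rw [norm_mul, hcn, one_mul]

theorem sph_ball {r : ℝ} (hr1 : r < 1) {s : ℂ} (hs : s ∈ sphere (0 : ℂ) r) : s ∈ ball (0 : ℂ) 1 := by
  rw [mem_sphere_zero_iff_norm] at hs
  rw [mem_ball_zero_iff, hs]; exact hr1

theorem sph_ne {r : ℝ} (hr : 0 < r) {s : ℂ} (hs : s ∈ sphere (0 : ℂ) r) : s ≠ 0 := by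
  rintro rfl
  rw [mem_sphere_zero_iff_norm, norm_zero] at hs
  exact hr.ne hs

theorem cont_sph {E : Type*} [NormedAddCommGroup E] [NormedSpace ℂ E] {r : ℝ} (hr1 : r < 1)
    {u : ℂ → E} (hu : DifferentiableOn ℂ u (ball 0 1)) : ContinuousOn u (sphere (0 : ℂ) r) :=
  hu.continuousOn.mono fun _ hs => sph_ball hr1 hs

theorem cont_inv_pow {r : ℝ} (hr : 0 < r) (k : ℕ) :
    ContinuousOn (fun s : ℂ => s⁻¹ ^ k) (sphere (0 : ℂ) r) :=
  (continuousOn_id.inv₀ fun _ hs => sph_ne hr hs).pow k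

/-- the mean value property -/
theorem av_an {E : Type*} [NormedAddCommGroup E] [NormedSpace ℂ E] [CompleteSpace E]
    {r : ℝ} (hr : 0 < r) (hr1 : r < 1) {u : ℂ → E}
    (hu : DifferentiableOn ℂ u (ball 0 1)) : av r u = u 0 := by
  have h1 : DiffContOnCl ℂ u (ball 0 |r|) := by
    rw [abs_of_pos hr]
    refine ⟨hu.mono (ball_subset_ball hr1.le), ?_⟩
    rw [closure_ball _ hr.ne']
    exact hu.continuousOn.mono (closedBall_subset_ball hr1)
  exact h1.circleAverage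

/-- the mean of `s^k u(s)`, `k ≥ 1`, vanishes -/
theorem av_pow_an {r : ℝ} (hr : 0 < r) (hr1 : r < 1) {u : ℂ → ℂ}
    (hu : DifferentiableOn ℂ u (ball 0 1)) {k : ℕ} (hk : 1 ≤ k) :
    av r (fun s => s ^ k * u s) = 0 := by
  rw [av_an hr hr1 (u := fun s => s ^ k * u s) ((differentiableOn_id.pow k).mul hu)]
  rw [zero_pow (by omega), zero_mul]

/-- on the circle `conj s = r² / s` -/
theorem conj_sph {r : ℝ} (hr : 0 < r) {s : ℂ} (hs : s ∈ sphere (0 : ℂ) r) :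
    (starRingEnd ℂ) s = (r : ℂ) ^ 2 * s⁻¹ := by
  have h0 := sph_ne hr hs
  rw [mem_sphere_zero_iff_norm] at hs
  have h1 : s * (starRingEnd ℂ) s = (r : ℂ) ^ 2 := by
    rw [Complex.mul_conj, Complex.normSq_eq_norm_sq, hs]; push_cast; rfl
  field_simp
  rw [mul_comm]; exact h1

/-- on the circle `conj s⁻¹ = s / r²` -/
theorem conj_inv_sph {r : ℝ} (hr : 0 < r) {s : ℂ} (hs : s ∈ sphere (0 : ℂ) r) :
    (starRingEnd ℂ) s⁻¹ = (r : ℂ)⁻¹ ^ 2 * s := by
  rw [map_inv₀, conj_sph hr hs, mul_inv, inv_inv, inv_pow]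

/-- the mean of `s⁻ᵏ conj (u s)`, `k ≥ 1`, vanishes -/
theorem av_inv_conj {r : ℝ} (hr : 0 < r) (hr1 : r < 1) {u : ℂ → ℂ}
    (hu : DifferentiableOn ℂ u (ball 0 1)) {k : ℕ} (hk : 1 ≤ k) :
    av r (fun s => s⁻¹ ^ k * (starRingEnd ℂ) (u s)) = 0 := by
  have h1 : av r (fun s => s⁻¹ ^ k * (starRingEnd ℂ) (u s)) =
      av r (fun s => (starRingEnd ℂ) (((r : ℂ)⁻¹ ^ 2) ^ k * (s ^ k * u s))) := by
    refine av_congr hr fun s hs => ?_
    have h2 := conj_inv_sph hr hs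
    rw [← mul_assoc, ← mul_pow, ← h2, map_mul, map_pow, Complex.conj_conj]
  have hc : ContinuousOn (fun s => ((r : ℂ)⁻¹ ^ 2) ^ k * (s ^ k * u s)) (sphere (0 : ℂ) r) :=
    continuousOn_const.mul (((continuousOn_id.pow k)).mul (cont_sph hr1 hu))
  rw [h1, av_conj hr hc, av_mul, av_pow_an hr hr1 hu hk, mul_zero, map_zero]

theorem av_conj_an {r : ℝ} (hr : 0 < r) (hr1 : r < 1) {u : ℂ → ℂ}
    (hu : DifferentiableOn ℂ u (ball 0 1)) :
    av r (fun s => (starRingEnd ℂ) (u s)) = (starRingEnd ℂ) (u 0) := by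
  rw [av_conj hr (cont_sph hr1 hu), av_an hr hr1 hu]

end KZ
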