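import Pool.Agent.Helper39.KZ.MAINa

/-! # MAIN: the main inequality on the circle `|t| = r` -/

set_option autoImplicit false

open Metric Set Polynomial

namespace KZ

theorem main_range {M : Type*} [AddCommMonoid M] (f : ℕ → M) (n : ℕ) :
    ∑ k ∈ Finset.range (n + 1), f k = f 0 + ∑ k ∈ Finset.Icc 1 n, f k := by
  induction n with
  | zero => simp
  | succ n ih =>
    rw [Finset.sum_range_succ, ih, Finset.sum_Icc_succ_top (by omega), add_assoc]

theorem main_eval_sum (g : ℂ → ℂ) (r : ℝ) (n : ℕ) (c₀ : ℂ) (c : ℕ → ℂ) (R : ℕ → ℂ → ℂ) (z t : ℂ)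
    (h : ∀ k, 1 ≤ k → (fab g r k).eval z = t⁻¹ ^ k + R k t) :
    (C c₀ + ∑ k ∈ Finset.Icc 1 n, C (c k) * fab g r k).eval z =
      c₀ + ∑ k ∈ Finset.Icc 1 n, c k * t⁻¹ ^ k + ∑ k ∈ Finset.Icc 1 n, c k * R k t := by
  rw [eval_add, eval_C, eval_finsetSum, add_assoc, ← Finset.sum_add_distrib]
  congr 1
  refine Finset.sum_congr rfl fun k hk => ?_
  rw [eval_mul, eval_C, h k (Finset.mem_Icc.mp hk).1, mul_add]

/-- the estimate of the `L²` norm of `F⁻¹ (q a)` -/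
theorem main_norm (g : ℂ → ℂ) (r : ℝ) (hr : 0 < r) (hr1 : r < 1) (hLOW : ST_LOW)
    (R : ℕ → ℂ → ℂ)
    (hR : ∀ k, 1 ≤ k → DifferentiableOn ℂ (R k) (ball 0 1) ∧ R k 0 = 0 ∧
      ∀ t ∈ ball (0 : ℂ) 1, t ≠ 0 → (fab g r k).eval (g t)⁻¹ = t⁻¹ ^ k + R k t)
    (hcon : ∀ (N : ℕ) (v : ℕ → ℂ), av r (fun t => ‖∑ k ∈ Finset.Icc 1 N, v k * R k t‖ ^ 2) ≤
      ∑ k ∈ Finset.Icc 1 N, ‖v k‖ ^ 2 * r⁻¹ ^ (2 * k))
    (q : ℂ[X]) (m : ℝ) (hq : ∀ t ∈ sphere (0 : ℂ) r, ‖q.eval (g t)⁻¹‖ ≤ m)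
    (N n : ℕ) (a₀ c₀ : ℂ) (a c : ℕ → ℂ)
    (hqa : q * (C a₀ + ∑ k ∈ Finset.Icc 1 N, C (a k) * fab g r k) =
      C c₀ + ∑ k ∈ Finset.Icc 1 n, C (c k) * fab g r k) :
    av r (fun s => ‖c₀ / 2 + ∑ k ∈ Finset.Icc 1 n, c k * s⁻¹ ^ k‖ ^ 2) ≤
      m ^ 2 * (‖a₀‖ ^ 2 + 2 * ∑ k ∈ Finset.Icc 1 N, ‖a k‖ ^ 2 * r⁻¹ ^ (2 * k)) := by
  have hRd : ∀ (n : ℕ) (c : ℕ → ℂ),
      DifferentiableOn ℂ (fun t => ∑ k ∈ Finset.Icc 1 n, c k * R k t) (ball 0 1) := by
    intro n c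
    refine DifferentiableOn.fun_sum fun k hk => ?_
    exact (differentiableOn_const _).mul (hR k (Finset.mem_Icc.mp hk).1).1
  have hR0 : ∀ (n : ℕ) (c : ℕ → ℂ), ∑ k ∈ Finset.Icc 1 n, c k * R k 0 = 0 := by
    intro n c
    refine Finset.sum_eq_zero fun k hk => ?_
    rw [(hR k (Finset.mem_Icc.mp hk).1).2.1, mul_zero]
  have hpc : ∀ (n : ℕ) (c₀ : ℂ) (c : ℕ → ℂ), ContinuousOn
      (fun s : ℂ => c₀ + ∑ k ∈ Finset.Icc 1 n, c k * s⁻¹ ^ k) (sphere (0 : ℂ) r) := by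
    intro n c₀ c
    refine continuousOn_const.add (continuousOn_finsetSum _ fun k _ => ?_)
    exact continuousOn_const.mul (cont_inv_pow hr k)
  have hec : ∀ (n : ℕ) (c₀ : ℂ) (c : ℕ → ℂ), ContinuousOn
      (fun s : ℂ => c₀ + ∑ k ∈ Finset.Icc 1 n, c k * s⁻¹ ^ k +
        ∑ k ∈ Finset.Icc 1 n, c k * R k s) (sphere (0 : ℂ) r) := fun n c₀ c =>
    (hpc n c₀ c).add (cont_sph hr1 (hRd n c))
  have hev : ∀ (n : ℕ) (c₀ : ℂ) (c : ℕ → ℂ), ∀ t ∈ sphere (0 : ℂ) r,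
      (C c₀ + ∑ k ∈ Finset.Icc 1 n, C (c k) * fab g r k).eval (g t)⁻¹ =
      c₀ + ∑ k ∈ Finset.Icc 1 n, c k * t⁻¹ ^ k + ∑ k ∈ Finset.Icc 1 n, c k * R k t := by
    intro n c₀ c t ht
    exact main_eval_sum g r n c₀ c R _ t fun k hk =>
      (hR k hk).2.2 t (sph_ball hr1 ht) (sph_ne hr ht)
  -- (i)
  have h1 := hLOW r hr hr1 n (c₀ / 2) c (fun _ => 0) (differentiableOn_const _) rfl
  simp only [add_zero] at h1
  have h1' : av r (fun _ : ℂ => ‖(0 : ℂ)‖ ^ 2) = 0 := by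
    rw [norm_zero, zero_pow two_ne_zero]; exact av_const r (0 : ℝ)
  -- (ii)
  have h2 := hLOW r hr hr1 n c₀ c _ (hRd n c) (hR0 n c)
  have h2' : 0 ≤ av r (fun t => ‖∑ k ∈ Finset.Icc 1 n, c k * R k t‖ ^ 2) :=
    av_nonneg hr fun s _ => by positivity
  -- (iv)
  have h4 := hLOW r hr hr1 N a₀ a _ (hRd N a) (hR0 N a)
  have h5 := hcon N a
  -- (iii)
  have h3 : av r (fun t => ‖c₀ + ∑ k ∈ Finset.Icc 1 n, c k * t⁻¹ ^ k +
        ∑ k ∈ Finset.Icc 1 n, c k * R k t‖ ^ 2) ≤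
      av r (fun t => m ^ 2 * ‖a₀ + ∑ k ∈ Finset.Icc 1 N, a k * t⁻¹ ^ k +
        ∑ k ∈ Finset.Icc 1 N, a k * R k t‖ ^ 2) := by
    refine av_mono hr ((hec n c₀ c).norm.pow 2) (continuousOn_const.mul ((hec N a₀ a).norm.pow 2))
      fun t ht => ?_
    rw [← hev n c₀ c t ht, ← hev N a₀ a t ht, ← hqa, eval_mul, norm_mul, mul_pow]
    have := hq t ht
    gcongr
  rw [av_mul_real] at h3
  have h6 : ‖c₀ / 2‖ ^ 2 ≤ ‖c₀‖ ^ 2 := by
    rw [norm_div, Complex.norm_ofNat]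
    have := norm_nonneg c₀
    nlinarith
  have h7 : 0 ≤ m ^ 2 := by positivity
  calc av r (fun s => ‖c₀ / 2 + ∑ k ∈ Finset.Icc 1 n, c k * s⁻¹ ^ k‖ ^ 2)
      = ‖c₀ / 2‖ ^ 2 + ∑ k ∈ Finset.Icc 1 n, ‖c k‖ ^ 2 * r⁻¹ ^ (2 * k) := by
        rw [h1, h1', add_zero]
    _ ≤ m ^ 2 * (‖a₀‖ ^ 2 + ∑ k ∈ Finset.Icc 1 N, ‖a k‖ ^ 2 * r⁻¹ ^ (2 * k) +
          av r (fun t => ‖∑ k ∈ Finset.Icc 1 N, a k * R k t‖ ^ 2)) := by
        rw [← h4]; linarith
    _ ≤ m ^ 2 * (‖a₀‖ ^ 2 + 2 * ∑ k ∈ Finset.Icc 1 N, ‖a k‖ ^ 2 * r⁻¹ ^ (2 * k)) := by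
        refine mul_le_mul_of_nonneg_left ?_ h7
        linarith

theorem st_MAIN.{u} (hFAB : ST_FAB) (hRK : ST_RK) (hCON : ST_CON)
    (hLOW : ST_LOW) (hPAR : ST_PAR) (hPOS : ST_POS.{u}) (hCOE : ST_COE.{u}) : ST_MAIN.{u} := by
  intro K g hK hg r hr hr1 E _ _ _ A hA q m hm hq
  by_cases hT : aeval A q = 0
  · rw [hT, norm_zero]; positivity
  obtain ⟨x, y, hx, hy, hTx, hTy⟩ := main_sing (aeval A q) hT
  set κ : ℝ := ‖aeval A q‖ with hκ
  have hunit := fun t ht => (hPOS K g hK hg E A hA t ht).1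
  have hpos := fun t ht => (hPOS K g hK hg E A hA t ht).2
  have hcoe := hCOE K g hK hg r hr hr1 E A hunit
  obtain ⟨R, hR1, hR2⟩ := hRK K g hK hg r hr hr1
  have hcon := hCON r hr hr1 R (fun k hk => ⟨(hR1 k hk).1, (hR1 k hk).2.1⟩) hR2
  obtain ⟨hF0, hbasis⟩ := hFAB K g hK hg r hr hr1
  have hrc : ((r : ℝ) : ℂ) ≠ 0 := by exact_mod_cast hr.ne'
  -- the function `e`
  set e : ℂ → ℂ := fun s => ent g A x x s + ent g A y y s with he
  have hed : DifferentiableOn ℂ e (ball 0 1) := (hcoe x x).1.add (hcoe y y).1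
  have he0 : e 0 = 2 := by
    rw [he]
    simp only
    rw [(hcoe x x).2.1, (hcoe y y).2.1, inner_self_eq_norm_sq_to_K, inner_self_eq_norm_sq_to_K,
      hx, hy]
    norm_num
  set ek : ℕ → ℂ := fun k => av r (fun s => s⁻¹ ^ k * e s) with hekd
  have hek : ∀ k, ek k = inner ℂ x ((aeval A (fab g r k)) x) +
      inner ℂ y ((aeval A (fab g r k)) y) := by
    intro k
    have h1 : ek k = av r (fun s => s⁻¹ ^ k * ent g A x x s + s⁻¹ ^ k * ent g A y y s) := by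
      rw [hekd]
      simp only [he, mul_add]
    have hc1 : ContinuousOn (fun s => s⁻¹ ^ k * ent g A x x s) (sphere (0 : ℂ) r) :=
      (cont_inv_pow hr k).mul (cont_sph hr1 (hcoe x x).1)
    have hc2 : ContinuousOn (fun s => s⁻¹ ^ k * ent g A y y s) (sphere (0 : ℂ) r) :=
      (cont_inv_pow hr k).mul (cont_sph hr1 (hcoe y y).1)
    rw [h1, av_add hr hc1 hc2, (hcoe x x).2.2 k, (hcoe y y).2.2 k]
  -- it is enough to prove the inequality up to `δ`
  refine le_of_forall_pos_le_add fun δ hδ => ?_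
  set m' : ℝ := m + δ / 4 with hm'
  have hm'0 : 0 < m' := by positivity
  have hmm' : m ≤ m' := by rw [hm']; linarith
  set ε : ℝ := 8 * δ / m' with hε
  have hε0 : 0 < ε := by positivity
  obtain ⟨N, hN⟩ := hPAR r hr hr1 e hed ε hε0
  have hpar := hN N le_rfl
  set B : ℝ := ∑ k ∈ Finset.Icc 1 N, ‖ek k‖ ^ 2 * r ^ (2 * k) with hB
  have hB0 : 0 ≤ B := Finset.sum_nonneg fun k _ => by positivity
  have hpar' : av r (fun t => (2 * (e t).re) ^ 2) ≤ 16 + 2 * B + ε := by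
    rw [he0] at hpar
    have h2 : ((2 : ℂ) ^ 2).re = 4 := by norm_num
    have h3 : ‖(2 : ℂ)‖ ^ 2 = 4 := by rw [Complex.norm_ofNat]; norm_num
    rw [h2, h3] at hpar
    linarith
  -- the test polynomial
  set a : ℕ → ℂ := fun k => (starRingEnd ℂ) (ek k) * (r : ℂ) ^ (2 * k) with ha
  set P : ℂ[X] := C 4 + ∑ k ∈ Finset.Icc 1 N, C (a k) * fab g r k with hP
  have hPin : ∀ u v : E, inner ℂ u ((aeval A P) v) = 4 * inner ℂ u v +
      ∑ k ∈ Finset.Icc 1 N, a k * inner ℂ u ((aeval A (fab g r k)) v) := by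
    intro u v
    rw [hP, map_add, aeval_C, map_sum, add_apply, inner_add_right,
      sum_apply, inner_sum]
    congr 1
    · rw [Algebra.algebraMap_eq_smul_one, smul_apply,
        one_apply_eq_self, inner_smul_right]
    · refine Finset.sum_congr rfl fun k _ => ?_
      rw [map_mul, aeval_C, Algebra.algebraMap_eq_smul_one, smul_mul_assoc, one_mul,
        smul_apply, inner_smul_right]
  have hclaim1 : inner ℂ x ((aeval A P) x) + inner ℂ y ((aeval A P) y) = ((8 + B : ℝ) : ℂ) := by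
    rw [hPin, hPin, inner_self_eq_norm_sq_to_K, inner_self_eq_norm_sq_to_K, hx, hy]
    have h1 : ∑ k ∈ Finset.Icc 1 N, a k * inner ℂ x ((aeval A (fab g r k)) x) +
        ∑ k ∈ Finset.Icc 1 N, a k * inner ℂ y ((aeval A (fab g r k)) y) = ((B : ℝ) : ℂ) := by
      rw [← Finset.sum_add_distrib, hB]
      push_cast
      refine Finset.sum_congr rfl fun k _ => ?_
      rw [← mul_add, ← hek k, ha]
      simp only
      rw [mul_right_comm, mul_comm ((starRingEnd ℂ) _), Complex.mul_conj,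
        Complex.normSq_eq_norm_sq]
      push_cast; ring
    calc _ = 8 + (∑ k ∈ Finset.Icc 1 N, a k * inner ℂ x ((aeval A (fab g r k)) x) +
        ∑ k ∈ Finset.Icc 1 N, a k * inner ℂ y ((aeval A (fab g r k)) y)) := by
          push_cast; ring
      _ = _ := by rw [h1]; push_cast; ring
  have hclaim2 : 2 * inner ℂ y ((aeval A (q * P)) x) = ((κ * (8 + B) : ℝ) : ℂ) := by
    have h1 : inner ℂ y ((aeval A (q * P)) x) = (κ : ℂ) * inner ℂ x ((aeval A P) x) := by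
      rw [map_mul, mul_apply_eq_comp, hTy]
    have h2 : inner ℂ y ((aeval A (q * P)) x) = (κ : ℂ) * inner ℂ y ((aeval A P) y) := by
      rw [mul_comm q P, map_mul, mul_apply_eq_comp, hTx, map_smul, inner_smul_right]
    rw [two_mul]
    nth_rewrite 1 [h1]
    rw [h2, ← mul_add, hclaim1]
    push_cast; ring
  -- expansion of `q P`
  obtain ⟨n, c, hc⟩ := hbasis (q * P)
  rw [main_range, hF0, mul_one] at hc
  set h : ℂ → ℂ := fun s => c 0 / 2 + ∑ k ∈ Finset.Icc 1 n, c k * s⁻¹ ^ k with hh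
  set σ : ℂ → ℂ := fun s => ent g A x y s + (starRingEnd ℂ) (ent g A y x s) with hσ
  have hhc : ContinuousOn h (sphere (0 : ℂ) r) := by
    refine continuousOn_const.add (continuousOn_finsetSum _ fun k _ => ?_)
    exact continuousOn_const.mul (cont_inv_pow hr k)
  have hσc : ContinuousOn σ (sphere (0 : ℂ) r) :=
    (cont_sph hr1 (hcoe x y).1).add
      (Complex.continuous_conj.comp_continuousOn (cont_sph hr1 (hcoe y x).1))
  have hec : ContinuousOn (fun s => (e s).re) (sphere (0 : ℂ) r) :=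
    Complex.continuous_re.comp_continuousOn (cont_sph hr1 hed)
  have hσ0 : av r σ = 2 * inner ℂ y x := by
    have hc2 : ContinuousOn (fun s => (starRingEnd ℂ) (ent g A y x s)) (sphere (0 : ℂ) r) :=
      Complex.continuous_conj.comp_continuousOn (cont_sph hr1 (hcoe y x).1)
    rw [hσ, av_add hr (cont_sph hr1 (hcoe x y).1) hc2,
      av_an hr hr1 (hcoe x y).1, av_conj_an hr hr1 (hcoe y x).1, (hcoe x y).2.1, (hcoe y x).2.1,
      inner_conj_symm, two_mul]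
  have hσk : ∀ k, 1 ≤ k → av r (fun s => s⁻¹ ^ k * σ s) =
      inner ℂ y ((aeval A (fab g r k)) x) := by
    intro k hk
    have h1 : av r (fun s => s⁻¹ ^ k * σ s) = av r (fun s => s⁻¹ ^ k * ent g A x y s +
        s⁻¹ ^ k * (starRingEnd ℂ) (ent g A y x s)) := by
      rw [hσ]
      simp only [mul_add]
    have hc1 : ContinuousOn (fun s => s⁻¹ ^ k * ent g A x y s) (sphere (0 : ℂ) r) :=
      (cont_inv_pow hr k).mul (cont_sph hr1 (hcoe x y).1)
    have hc2 : ContinuousOn (fun s => s⁻¹ ^ k * (starRingEnd ℂ) (ent g A y x s))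
        (sphere (0 : ℂ) r) :=
      (cont_inv_pow hr k).mul
        (Complex.continuous_conj.comp_continuousOn (cont_sph hr1 (hcoe y x).1))
    rw [h1, av_add hr hc1 hc2,
      (hcoe x y).2.2 k, av_inv_conj hr hr1 (hcoe y x).1 hk, add_zero]
  have hclaim3 : av r (fun s => h s * σ s) = inner ℂ y ((aeval A (q * P)) x) := by
    have h1 : av r (fun s => h s * σ s) = av r (fun s => c 0 / 2 * σ s +
        ∑ k ∈ Finset.Icc 1 n, c k * (s⁻¹ ^ k * σ s)) := by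
      rw [hh]
      congr 1
      funext s
      rw [add_mul, Finset.sum_mul]
      congr 1
      refine Finset.sum_congr rfl fun k _ => ?_
      ring
    have hc0 : ContinuousOn (fun s => c 0 / 2 * σ s) (sphere (0 : ℂ) r) :=
      continuousOn_const.mul hσc
    have hc1 : ∀ k ∈ Finset.Icc 1 n, ContinuousOn (fun s => c k * (s⁻¹ ^ k * σ s))
        (sphere (0 : ℂ) r) := fun k _ => continuousOn_const.mul ((cont_inv_pow hr k).mul hσc)
    have hc2 : ContinuousOn (fun s => ∑ k ∈ Finset.Icc 1 n, c k * (s⁻¹ ^ k * σ s))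
        (sphere (0 : ℂ) r) := continuousOn_finsetSum _ hc1
    rw [h1, av_add hr hc0 hc2, av_mul, hσ0, av_sum hr _ hc1, hc,
      map_add, aeval_C, map_sum, add_apply, inner_add_right,
      sum_apply, inner_sum]
    congr 1
    · rw [Algebra.algebraMap_eq_smul_one, smul_apply,
        one_apply_eq_self, inner_smul_right]
      ring
    · refine Finset.sum_congr rfl fun k hk => ?_
      rw [av_mul, hσk k (Finset.mem_Icc.mp hk).1, map_mul, aeval_C,
        Algebra.algebraMap_eq_smul_one, smul_mul_assoc, one_mul,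
        smul_apply, inner_smul_right]
  -- the estimate
  have hclaim4 : κ * (8 + B) ≤ av r (fun s => 2 * (‖h s‖ * (e s).re)) := by
    have h1 : ‖(2 : ℂ) * inner ℂ y ((aeval A (q * P)) x)‖ = κ * (8 + B) := by
      rw [hclaim2, Complex.norm_real, Real.norm_of_nonneg (by positivity)]
    rw [← h1, ← hclaim3, norm_mul, Complex.norm_ofNat, av_mul_real]
    refine mul_le_mul_of_nonneg_left ?_ (by norm_num)
    have hc1 : ContinuousOn (fun s => h s * σ s) (sphere (0 : ℂ) r) := hhc.mul hσc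
    refine (norm_av_le hr hc1).trans ?_
    refine av_mono hr hc1.norm (hhc.norm.mul hec) fun s hs => ?_
    rw [norm_mul]
    refine mul_le_mul_of_nonneg_left ?_ (norm_nonneg _)
    exact main_sigma g A s (hpos s (sph_ball hr1 hs)) x y
  have hclaim5 : av r (fun s => 2 * (‖h s‖ * (e s).re)) ≤
      (1 / (2 * m')) * av r (fun s => ‖h s‖ ^ 2) + (m' / 2) * av r (fun s => (2 * (e s).re) ^ 2) := by
    have hc2 : ContinuousOn (fun s => (m' / 2) * (2 * (e s).re) ^ 2) (sphere (0 : ℂ) r) :=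
      continuousOn_const.mul ((continuousOn_const.mul hec).pow 2)
    have hc1 : ContinuousOn (fun s => (1 / (2 * m')) * ‖h s‖ ^ 2) (sphere (0 : ℂ) r) :=
      continuousOn_const.mul (hhc.norm.pow 2)
    have hc3 : ContinuousOn (fun s => 2 * (‖h s‖ * (e s).re)) (sphere (0 : ℂ) r) :=
      continuousOn_const.mul (hhc.norm.mul hec)
    rw [← av_mul_real, ← av_mul_real, ← av_add hr hc1 hc2]
    refine av_mono hr hc3 (hc1.add hc2) fun s _ => ?_
    have h1 : 1 / (2 * m') * ‖h s‖ ^ 2 + m' / 2 * (2 * (e s).re) ^ 2 -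
        2 * (‖h s‖ * (e s).re) = (1 / (2 * m')) * (‖h s‖ - m' * (2 * (e s).re)) ^ 2 := by
      field_simp; ring
    have h2 : 0 ≤ (1 / (2 * m')) * (‖h s‖ - m' * (2 * (e s).re)) ^ 2 := by positivity
    linarith
  have hclaim6 : av r (fun s => ‖h s‖ ^ 2) ≤ m ^ 2 * (16 + 2 * B) := by
    have h1 := main_norm g r hr hr1 hLOW R hR1 hcon q m hq N n 4 (c 0) a c hc
    have h2 : ‖(4 : ℂ)‖ ^ 2 = 16 := by rw [Complex.norm_ofNat]; norm_num
    have h3 : ∑ k ∈ Finset.Icc 1 N, ‖a k‖ ^ 2 * r⁻¹ ^ (2 * k) = B := by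
      rw [hB]
      refine Finset.sum_congr rfl fun k _ => ?_
      rw [ha]
      simp only
      rw [norm_mul, RCLike.norm_conj, norm_pow, Complex.norm_real, Real.norm_of_nonneg hr.le,
        mul_pow, inv_pow]
      field_simp
    rw [h2, h3] at h1
    exact h1
  -- conclusion
  have h1 : 1 / (2 * m') * (m ^ 2 * (16 + 2 * B)) ≤ m' / 2 * (16 + 2 * B) := by
    have h2 : m ^ 2 ≤ m' ^ 2 := by gcongr
    have h3 : 1 / (2 * m') * (m' ^ 2 * (16 + 2 * B)) = m' / 2 * (16 + 2 * B) := by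
      field_simp
    rw [← h3]
    have h4 : 0 ≤ 16 + 2 * B := by positivity
    gcongr
  have h2 : κ * (8 + B) ≤ 2 * m' * (8 + B) + m' * ε / 2 := by
    have h3 : 1 / (2 * m') * av r (fun s => ‖h s‖ ^ 2) ≤
        1 / (2 * m') * (m ^ 2 * (16 + 2 * B)) := by gcongr
    have h4 : m' / 2 * av r (fun s => (2 * (e s).re) ^ 2) ≤ m' / 2 * (16 + 2 * B + ε) := by
      gcongr
    nlinarith [hclaim4, hclaim5, h1, h3, h4]
  have h3 : m' * ε = 8 * δ := by rw [hε]; field_simp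
  rw [h3] at h2
  have h5 : κ * (8 + B) ≤ (2 * m' + δ / 2) * (8 + B) := by nlinarith
  have h6 : κ ≤ 2 * m' + δ / 2 := le_of_mul_le_mul_right h5 (by positivity)
  rw [hm'] at h6
  linarith

end KZ
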