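import Pool.Agent.Helper39.KZ.Av

/-! # MAIN, first part: singular pairs and the bound for the off-diagonal entry -/

set_option autoImplicit false

open Metric Set Polynomial

namespace KZ

/-- singular pair -/
theorem main_sing.{u} {E : Type u} [NormedAddCommGroup E] [InnerProductSpace ℂ E]
    [FiniteDimensional ℂ E] (T : E →L[ℂ] E) (hT : T ≠ 0) :
    ∃ x y : E, ‖x‖ = 1 ∧ ‖y‖ = 1 ∧ T x = ((‖T‖ : ℝ) : ℂ) • y ∧
      ∀ z, inner ℂ y (T z) = ((‖T‖ : ℝ) : ℂ) * inner ℂ x z := by
  have : CompleteSpace E := FiniteDimensional.complete ℂ E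
  have : ProperSpace E := FiniteDimensional.proper_rclike ℂ E
  have hne : ∃ z : E, T z ≠ 0 := by
    by_contra h
    push Not at h
    exact hT (ContinuousLinearMap.ext h)
  obtain ⟨z, hz⟩ := hne
  have hz0 : z ≠ 0 := by rintro rfl; exact hz (map_zero T)
  have hsph : (sphere (0 : E) 1).Nonempty :=
    ⟨((‖z‖⁻¹ : ℝ) : ℂ) • z, by
      rw [mem_sphere_zero_iff_norm, norm_smul, Complex.norm_real, norm_inv, norm_norm,
        inv_mul_cancel₀ (norm_ne_zero_iff.mpr hz0)]⟩
  obtain ⟨x, hx, hmax⟩ := (isCompact_sphere (0 : E) 1).exists_isMaxOn hsph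
    (f := fun x => ‖T x‖) (T.continuous.norm.continuousOn)
  rw [mem_sphere_zero_iff_norm] at hx
  have hκ : ‖T x‖ = ‖T‖ := by
    apply le_antisymm
    · have := T.le_opNorm x
      rwa [hx, mul_one] at this
    · refine T.opNorm_le_bound (norm_nonneg _) fun w => ?_
      by_cases hw : w = 0
      · subst hw; simp
      · have hw' : (0 : ℝ) < ‖w‖ := norm_pos_iff.mpr hw
        have h1 : ‖T (((‖w‖⁻¹ : ℝ) : ℂ) • w)‖ ≤ ‖T x‖ := hmax (by
          rw [mem_sphere_zero_iff_norm, norm_smul, Complex.norm_real, norm_inv, norm_norm,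
            inv_mul_cancel₀ hw'.ne'])
        rw [map_smul, norm_smul, Complex.norm_real, norm_inv, norm_norm,
          inv_mul_le_iff₀ hw'] at h1
        rw [mul_comm]; exact h1
  have hκ0 : (0 : ℝ) < ‖T‖ := norm_pos_iff.mpr hT
  have hκc : ((‖T‖ : ℝ) : ℂ) ≠ 0 := by exact_mod_cast hκ0.ne'
  set y : E := ((‖T‖⁻¹ : ℝ) : ℂ) • T x with hy
  have hTx : T x = ((‖T‖ : ℝ) : ℂ) • y := by
    rw [hy, smul_smul, ← Complex.ofReal_mul, mul_inv_cancel₀ hκ0.ne', Complex.ofReal_one, one_smul]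
  have hyn : ‖y‖ = 1 := by
    rw [hy, norm_smul, Complex.norm_real, norm_inv, norm_norm, hκ, inv_mul_cancel₀ hκ0.ne']
  have hadj : ContinuousLinearMap.adjoint T y = ((‖T‖ : ℝ) : ℂ) • x := by
    have h1 : ‖ContinuousLinearMap.adjoint T y‖ ≤ ‖T‖ := by
      have := (ContinuousLinearMap.adjoint T).le_opNorm y
      rwa [hyn, mul_one, LinearIsometryEquiv.norm_map] at this
    have h2 : inner ℂ (ContinuousLinearMap.adjoint T y) x = ((‖T‖ : ℝ) : ℂ) := by
      rw [ContinuousLinearMap.adjoint_inner_left, hTx, inner_smul_right,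
        inner_self_eq_norm_sq_to_K, hyn]
      simp
    have h3 : ‖ContinuousLinearMap.adjoint T y - ((‖T‖ : ℝ) : ℂ) • x‖ ^ 2 ≤ 0 := by
      rw [@norm_sub_sq ℂ, inner_smul_right, h2, norm_smul, Complex.norm_real, norm_norm, hx,
        ← Complex.ofReal_mul, RCLike.re_to_complex, Complex.ofReal_re]
      nlinarith [norm_nonneg (ContinuousLinearMap.adjoint T y), norm_nonneg T]
    have h4 : ‖ContinuousLinearMap.adjoint T y - ((‖T‖ : ℝ) : ℂ) • x‖ = 0 := by
      nlinarith [norm_nonneg (ContinuousLinearMap.adjoint T y - ((‖T‖ : ℝ) : ℂ) • x)]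
    exact sub_eq_zero.mp (norm_eq_zero.mp h4)
  refine ⟨x, y, hx, hyn, hTx, fun z => ?_⟩
  rw [← ContinuousLinearMap.adjoint_inner_left, hadj, inner_smul_left, Complex.conj_ofReal]

/-- the bound for the off-diagonal entry -/
theorem main_sigma.{u} {E : Type u} [NormedAddCommGroup E] [InnerProductSpace ℂ E]
    (g : ℂ → ℂ) (A : E →L[ℂ] E) (t : ℂ) (hpos : ∀ v : E, 0 ≤ (ent g A v v t).re) (x y : E) :
    ‖ent g A x y t + (starRingEnd ℂ) (ent g A y x t)‖ ≤ (ent g A x x t + ent g A y y t).re := by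
  set σ := ent g A x y t + (starRingEnd ℂ) (ent g A y x t) with hσ
  by_cases h0 : σ = 0
  · rw [h0, norm_zero, Complex.add_re]
    exact add_nonneg (hpos x) (hpos y)
  · have hn : (0 : ℝ) < ‖σ‖ := norm_pos_iff.mpr h0
    set ω : ℂ := σ / ‖σ‖ with hω
    have hnc : ((‖σ‖ : ℝ) : ℂ) ≠ 0 := by exact_mod_cast hn.ne'
    have hωω : (starRingEnd ℂ) ω * ω = 1 := by
      rw [← Complex.normSq_eq_conj_mul_self, Complex.normSq_eq_norm_sq, hω, norm_div,
        Complex.norm_real, norm_norm, div_self hn.ne']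
      simp
    have hωσ : (starRingEnd ℂ) ω * σ = ((‖σ‖ : ℝ) : ℂ) := by
      rw [hω, map_div₀, Complex.conj_ofReal, div_mul_eq_mul_div,
        ← Complex.normSq_eq_conj_mul_self, Complex.normSq_eq_norm_sq, div_eq_iff hnc]
      push_cast; ring
    have h1 := hpos (x - ω • y)
    have h2 : ent g A (x - ω • y) (x - ω • y) t =
        ent g A x x t - ω * ent g A y x t - (starRingEnd ℂ) ω * ent g A x y t +
          (starRingEnd ℂ) ω * ω * ent g A y y t := by
      unfold ent
      simp only [map_sub, map_smul, smul_sub, inner_sub_left, inner_sub_right, inner_smul_left,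
        inner_smul_right]
      ring
    rw [h2, hωω, one_mul] at h1
    have h3 : (ω * ent g A y x t + (starRingEnd ℂ) ω * ent g A x y t).re = ‖σ‖ := by
      have h4 : (ω * ent g A y x t).re =
          ((starRingEnd ℂ) ω * (starRingEnd ℂ) (ent g A y x t)).re := by
        rw [← map_mul, Complex.conj_re]
      rw [Complex.add_re, h4, ← Complex.add_re, ← mul_add, add_comm ((starRingEnd ℂ) _) _, ← hσ,
        hωσ, Complex.ofReal_re]
    rw [Complex.add_re] at h3
    simp only [Complex.add_re, Complex.sub_re] at h1 ⊢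
    linarith

end KZ
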